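import Mathlib

set_option autoImplicit false

namespace Pool.Agent.Results.MP_332e42_an.SingleDigitFails

/-- `R` is expansive: every complex eigenvalue has modulus strictly greater than `1`. -/
def Expansive {d : ℕ} (R : Matrix (Fin d) (Fin d) ℤ) : Prop :=
  ∀ (z : ℂ) (x : Fin d → ℂ), x ≠ 0 → (R.map (fun k : ℤ => (k : ℂ))).mulVec x = z • x → 1 < ‖z‖

/-- `B` is a simple digit set for `R`. -/
def SimpleDigits {d : ℕ} (R : Matrix (Fin d) (Fin d) ℤ) (B : Finset (Fin d → ℤ)) : Prop :=
  ∀ b ∈ B, ∀ b' ∈ B, (∃ w : Fin d → ℤ, b - b' = R.mulVec w) → b = b'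

/-- `B` is a complete set of representatives modulo `R(ℤ^d)`. -/
def CompleteDigits {d : ℕ} (R : Matrix (Fin d) (Fin d) ℤ) (B : Finset (Fin d → ℤ)) : Prop :=
  SimpleDigits R B ∧ ∀ z : Fin d → ℤ, ∃ b ∈ B, ∃ w : Fin d → ℤ, z - b = R.mulVec w

/-- `T` is the attractor of the maps `x ↦ R⁻¹(x + b)`, `b ∈ B`: a nonempty compact set with
`x ∈ T ↔ R x - b ∈ T` for some `b ∈ B`. -/
def IsAttractor {d : ℕ} (R : Matrix (Fin d) (Fin d) ℤ) (B : Finset (Fin d → ℤ))
    (T : Set (Fin d → ℝ)) : Prop :=
  T.Nonempty ∧ IsCompact T ∧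
    ∀ x, x ∈ T ↔ ∃ b ∈ B, (R.map (fun k : ℤ => (k : ℝ))).mulVec x - (fun i => (b i : ℝ)) ∈ T

/-- The `T`-strong open set condition. -/
def TSOSC {d : ℕ} (R : Matrix (Fin d) (Fin d) ℤ) (B : Finset (Fin d → ℤ)) : Prop :=
  ∃ Bb : Finset (Fin d → ℤ), B ⊆ Bb ∧ CompleteDigits R Bb ∧
    ∃ T Tb : Set (Fin d → ℝ), IsAttractor R B T ∧ IsAttractor R Bb Tb ∧ (T ∩ interior Tb).Nonempty

/-- The weighted shift matrix in dimension `n + 1`:
`R e_0 = e_1, …, R e_(n-1) = e_n, R e_n = 2 e_0` (so `R = (2)` for `n = 0`). -/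
def R (n : ℕ) : Matrix (Fin (n + 1)) (Fin (n + 1)) ℤ :=
  fun i j => if i = 0 then (if j = Fin.last n then 2 else 0)
    else (if (i : ℕ) = (j : ℕ) + 1 then 1 else 0)

theorem mv {K : Type} [CommRing K] {n : ℕ} (x : Fin (n + 1) → K) :
    ((R n).map (fun k : ℤ => (k : K))).mulVec x
      = Fin.cons (2 * x (Fin.last n)) (fun j : Fin n => x j.castSucc) := by
  ext i
  refine Fin.cases ?_ (fun j => ?_) i
  · simp only [Matrix.mulVec, dotProduct, Matrix.map_apply, R, Fin.cons_zero, if_true]
    rw [Finset.sum_eq_single (Fin.last n)]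
    · simp
    · intro b _ hb
      simp [hb]
    · simp
  · simp only [Matrix.mulVec, dotProduct, Matrix.map_apply, R, Fin.cons_succ]
    rw [Finset.sum_eq_single j.castSucc]
    · simp
    · intro b _ hb
      have h1 : (j : ℕ) ≠ (b : ℕ) := by
        intro h
        apply hb
        apply Fin.ext
        simp [h]
      simp [h1]
    · simp

theorem mvZ {n : ℕ} (x : Fin (n + 1) → ℤ) :
    (R n).mulVec x = Fin.cons (2 * x (Fin.last n)) (fun j : Fin n => x j.castSucc) := by
  have h := mv (K := ℤ) x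
  have h2 : (R n).map (fun k : ℤ => ((k : ℤ) : ℤ)) = R n := by
    ext i j
    simp
  rw [← h]
  congr 1

theorem mem_range_iff {n : ℕ} (y : Fin (n + 1) → ℤ) :
    (∃ w : Fin (n + 1) → ℤ, y = (R n).mulVec w) ↔ ∃ k, y 0 = 2 * k := by
  constructor
  · rintro ⟨w, hw⟩
    refine ⟨w (Fin.last n), ?_⟩
    rw [hw, mvZ, Fin.cons_zero]
  · rintro ⟨k, hk⟩
    refine ⟨Fin.snoc (α := fun _ => ℤ) (fun j : Fin n => y j.succ) k, ?_⟩
    rw [mvZ]
    ext i
    refine Fin.cases ?_ (fun j => ?_) i
    · rw [Fin.cons_zero, Fin.snoc_last, hk]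
    · rw [Fin.cons_succ, Fin.snoc_castSucc]

theorem expansive (n : ℕ) : Expansive (R n) := by
  intro z x hx h
  rw [mv] at h
  have hlast : z * x 0 = 2 * x (Fin.last n) := by
    have := congrFun h 0
    simpa using this.symm
  have hstep : ∀ j : Fin n, z * x j.succ = x j.castSucc := by
    intro j
    have := congrFun h j.succ
    simpa using this.symm
  have hpow : ∀ k : ℕ, ∀ hk : k < n + 1, x 0 = z ^ k * x ⟨k, hk⟩ := by
    intro k
    induction k with
    | zero => intro hk; simp
    | succ k ih =>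
      intro hk
      rw [ih (by omega)]
      have := hstep ⟨k, by omega⟩
      simp only [Fin.succ_mk, Fin.castSucc_mk] at this
      rw [← this]
      ring
  have h0 : x (Fin.last n) ≠ 0 := by
    intro h0
    have hz : z * x 0 = 0 := by rw [hlast, h0, mul_zero]
    have hall : ∀ k : ℕ, ∀ hk : k ≤ n, x ⟨n - k, by omega⟩ = 0 := by
      intro k
      induction k with
      | zero => intro _; exact h0
      | succ k ih =>
        intro hk
        have h1 := hstep ⟨n - (k + 1), by omega⟩
        have h2 := ih (by omega)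
        have h3 : (⟨n - (k + 1), by omega⟩ : Fin n).succ = ⟨n - k, by omega⟩ := by
          apply Fin.ext
          simp only [Fin.val_succ]
          omega
        rw [h3, h2, mul_zero] at h1
        exact h1.symm
    apply hx
    ext i
    have h4 := hall (n - i) (by omega)
    have h5 : (⟨n - (n - (i : ℕ)), by omega⟩ : Fin (n + 1)) = i := by
      apply Fin.ext
      have := i.2
      simp only
      omega
    rw [h5] at h4
    exact h4
  have h1 := hpow n (by omega)
  have h2 : z ^ (n + 1) * x (Fin.last n) = 2 * x (Fin.last n) := by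
    rw [← hlast, h1]
    show z ^ (n + 1) * x (Fin.last n) = z * (z ^ n * x (Fin.last n))
    ring
  have h3 : z ^ (n + 1) = 2 := mul_right_cancel₀ h0 h2
  by_contra hcon
  push Not at hcon
  have h4 : ‖z ^ (n + 1)‖ ≤ 1 := by
    rw [norm_pow]
    exact pow_le_one₀ (norm_nonneg z) hcon
  rw [h3] at h4
  norm_num at h4

/-- In every dimension `n + 1 ≥ 1` the matrix `R n` is expansive and every one-element digit set
`{b}` is a simple digit set which does not satisfy the `T`-strong open set condition. -/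
theorem result (n : ℕ) :
    Expansive (R n) ∧ ∀ b : Fin (n + 1) → ℤ, SimpleDigits (R n) {b} ∧ ¬ TSOSC (R n) {b} := by
  refine ⟨expansive n, ?_⟩
  intro b
  refine ⟨?_, ?_⟩
  · intro c hc c' hc' _
    rw [Finset.mem_singleton] at hc hc'
    rw [hc, hc']
  · rintro ⟨Bb, hsub, ⟨hsimp, hcomp⟩, T, Tb, ⟨hTne, hTc, hT⟩, ⟨hTbne, hTbc, hTb⟩, x, hxT, hxi⟩
    have hbB : b ∈ Bb := hsub (Finset.mem_singleton_self b)
    -- the eigenvalue
    obtain ⟨l, hl1, hl2⟩ : ∃ l : ℝ, 1 < l ∧ l ^ (n + 1) = 2 := by
      refine ⟨(2 : ℝ) ^ (((n + 1 : ℕ) : ℝ)⁻¹), ?_, Real.rpow_inv_natCast_pow (by norm_num) (by omega)⟩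
      exact Real.one_lt_rpow (by norm_num) (by positivity)
    set f : (Fin (n + 1) → ℝ) → ℝ := fun y => ∑ i : Fin (n + 1), l ^ (i : ℕ) * y i with hf
    have hfcont : Continuous f := by
      rw [hf]
      fun_prop
    have hfR : ∀ (y : Fin (n + 1) → ℝ) (c : Fin (n + 1) → ℤ),
        f (((R n).map (fun k : ℤ => (k : ℝ))).mulVec y - (fun i => (c i : ℝ)))
          = l * f y - f (fun i => (c i : ℝ)) := by
      intro y c
      have h1 : f (((R n).map (fun k : ℤ => (k : ℝ))).mulVec y - (fun i => (c i : ℝ)))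
          = f (((R n).map (fun k : ℤ => (k : ℝ))).mulVec y) - f (fun i => (c i : ℝ)) := by
        simp only [hf, Pi.sub_apply, mul_sub, Finset.sum_sub_distrib]
      rw [h1]
      congr 1
      rw [mv]
      simp only [hf]
      rw [Fin.sum_univ_succ, Fin.sum_univ_castSucc, mul_add, Finset.mul_sum]
      simp only [Fin.cons_zero, Fin.cons_succ, Fin.val_zero, pow_zero, one_mul, Fin.val_succ,
        Fin.val_castSucc, Fin.val_last]
      rw [← hl2, add_comm]
      congr 1
      · apply Finset.sum_congr rfl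
        intro j _
        ring
      · ring
    set β : ℝ := f (fun i => (b i : ℝ)) with hβ
    have hl0 : 0 < l - 1 := by linarith
    -- `f` is constant on the attractor of `{b}`
    have hTb0 : ∀ y ∈ T, (l - 1) * f y = β := by
      obtain ⟨M, hM, hMmax⟩ := hTc.exists_isMaxOn hTne
        (f := fun y => |(l - 1) * f y - β|) (by fun_prop)
      intro y hy
      obtain ⟨c, hc, h1⟩ := (hT M).1 hM
      rw [Finset.mem_singleton] at hc
      subst hc
      have h2 : |(l - 1) * f _ - β| ≤ |(l - 1) * f M - β| := hMmax h1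
      have h3 : |(l - 1) * f y - β| ≤ |(l - 1) * f M - β| := hMmax hy
      rw [hfR] at h2
      have h4 : (l - 1) * (l * f M - f (fun i => (c i : ℝ))) - β = l * ((l - 1) * f M - β) := by
        rw [← hβ]
        ring
      rw [h4, abs_mul, abs_of_pos (by linarith : 0 < l)] at h2
      have h5 : |(l - 1) * f M - β| ≤ 0 := by
        by_contra hcon
        push Not at hcon
        nlinarith
      have h6 : |(l - 1) * f y - β| ≤ 0 := by linarith
      have h7 := abs_nonpos_iff.1 h6
      linarith
    -- a complete set containing `b` has only two digits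
    obtain ⟨v, hv, w, hw⟩ := hcomp (fun i => b i + 1)
    obtain ⟨k0, hk0⟩ := (mem_range_iff _).1 ⟨w, hw⟩
    simp only [Pi.sub_apply] at hk0
    have hcases : ∀ c ∈ Bb, c = b ∨ c = v := by
      intro c hc
      rcases Int.even_or_odd (c 0 - b 0) with he | ho
      · left
        obtain ⟨k, hk⟩ := he
        apply hsimp c hc b hbB
        apply (mem_range_iff _).2
        refine ⟨k, ?_⟩
        simp only [Pi.sub_apply]
        omega
      · right
        obtain ⟨k, hk⟩ := ho
        apply hsimp c hc v hv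
        apply (mem_range_iff _).2
        refine ⟨k + k0, ?_⟩
        simp only [Pi.sub_apply]
        omega
    obtain ⟨s, hs, hsv⟩ : ∃ s : ℝ, s ≠ 0 ∧ 0 ≤ s * (f (fun i => (v i : ℝ)) - β) := by
      rcases le_total β (f (fun i => (v i : ℝ))) with h | h
      · exact ⟨1, by norm_num, by linarith⟩
      · exact ⟨-1, by norm_num, by linarith⟩
    have hside : ∀ y ∈ Tb, 0 ≤ s * ((l - 1) * f y - β) := by
      obtain ⟨M, hM, hMmin⟩ := hTbc.exists_isMinOn hTbne
        (f := fun y => s * ((l - 1) * f y - β)) (by fun_prop)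
      obtain ⟨c, hc, h1⟩ := (hTb M).1 hM
      have h2 : s * ((l - 1) * f M - β) ≤ s * ((l - 1) * f _ - β) := hMmin h1
      rw [hfR] at h2
      have h3 : 0 ≤ s * (f (fun i => (c i : ℝ)) - β) := by
        rcases hcases c hc with h | h
        · rw [h, ← hβ]; simp
        · rw [h]; exact hsv
      have h4 : s * ((l - 1) * (l * f M - f (fun i => (c i : ℝ))) - β)
          = l * (s * ((l - 1) * f M - β)) - (l - 1) * (s * (f (fun i => (c i : ℝ)) - β)) := by
        ring
      rw [h4] at h2
      have h5 : 0 ≤ s * ((l - 1) * f M - β) := by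
        have h6 : 0 ≤ (l - 1) * (s * (f (fun i => (c i : ℝ)) - β)) := mul_nonneg hl0.le h3
        by_contra hcon
        push Not at hcon
        nlinarith
      intro y hy
      exact h5.trans (hMmin hy)
    -- `x` cannot be interior
    have hx0 := hTb0 x hxT
    rw [mem_interior_iff_mem_nhds, Metric.mem_nhds_iff] at hxi
    obtain ⟨ε, hε, hball⟩ := hxi
    have hmem : ∀ t : ℝ, |t| < ε → 0 ≤ s * ((l - 1) * t) := by
      intro t ht
      have h1 : x + Pi.single 0 t ∈ Metric.ball x ε := by
        rw [Metric.mem_ball, dist_pi_lt_iff hε]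
        intro i
        rw [Real.dist_eq]
        by_cases hi : i = 0
        · subst hi; simpa using ht
        · simpa [hi] using hε
      have h2 := hside _ (hball h1)
      have h3 : f (x + Pi.single 0 t) = f x + t := by
        simp only [hf, Pi.add_apply, mul_add, Finset.sum_add_distrib]
        congr 1
        rw [Finset.sum_eq_single 0]
        · simp
        · intro i _ hi
          simp [hi]
        · simp
      rw [h3] at h2
      have h4 : s * ((l - 1) * (f x + t) - β) = s * ((l - 1) * t) := by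
        rw [mul_add, hx0]; ring
      linarith
    have ha := hmem (ε / 2) (by rw [abs_of_pos (by linarith)]; linarith)
    have hb := hmem (-(ε / 2)) (by rw [abs_neg, abs_of_pos (by linarith)]; linarith)
    have h0 : s * ((l - 1) * (ε / 2)) = 0 := by
      have : s * ((l - 1) * -(ε / 2)) = -(s * ((l - 1) * (ε / 2))) := by ring
      linarith
    have h1 : (l - 1) * (ε / 2) ≠ 0 := by positivity
    rcases mul_eq_zero.1 h0 with h | h
    · exact hs h
    · exact h1 h

end Pool.Agent.Results.MP_332e42_an.SingleDigitFails
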